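import Mathlib

set_option autoImplicit false

/-!
# Three-valued crosscorrelation decimations, n = 3 * 2^a (MP_85e36e_co): definitions
-/

namespace Pool.Agent.TV

/-- The binary weight (sum of the binary digits) of a natural number. -/
def bw (x : ℕ) : ℕ := (Nat.digits 2 x).sum

/-- The Weil sum `W(a) = sum_x (-1)^Tr(x^d + a x)` over a finite field of characteristic two. -/
noncomputable def W (F : Type) [Field F] [Fintype F] [Algebra (ZMod 2) F] (d : ℕ) (a : F) : ℤ :=
  ∑ x : F, (if Algebra.trace (ZMod 2) F (x ^ d + a * x) = 0 then 1 else -1)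

/-- The weight condition: `bw j + bw z > n/2` whenever `j` is not `0` and `z = - d j` modulo
`2^n - 1`. -/
def V (n d : ℕ) : Prop :=
  ∀ j z : ℕ, ¬ (2 ^ n - 1 ∣ j) → (2 ^ n - 1 ∣ z + d * j) → n < 2 * (bw j + bw z)

end Pool.Agent.TV
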